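import Pool.Agent.H54.LQ.Targets

/-!
# Finite index by dense elements (MP_5607ba_lc, row FIN)
-/

set_option autoImplicit false

open Set Filter Topology

namespace Pool.Agent.H62.LQ

open Pool.Agent.H93.CP Pool.Agent.H7.LP Pool.Agent.H7.LQ Pool.Agent.H54.LQ

theorem pf_FIN (h1 : T_DOP) : T_FIN := by
  classical
  intro G _ _ _ K' K D δ hK'K hKD hop hδ hden
  constructor
  · intro hf
    obtain ⟨F0, hfin, hF0⟩ := hf
    have hex : ∀ f : G, ∃ n : ℕ, (∃ m, δ m ∈ K ∧ f⁻¹ * δ m ∈ K') → δ n ∈ K ∧ f⁻¹ * δ n ∈ K' := by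
      intro f
      by_cases h : ∃ m, δ m ∈ K ∧ f⁻¹ * δ m ∈ K'
      · obtain ⟨m, hm⟩ := h
        exact ⟨m, fun _ => hm⟩
      · exact ⟨0, fun h' => absurd h' h⟩
    choose nf hnf using hex
    refine ⟨hfin.toFinset.image nf, fun n hn => ?_⟩
    obtain ⟨f, hf, hfn⟩ := hF0 (δ n) hn
    obtain ⟨h2, h3⟩ := hnf f ⟨n, hn, hfn⟩
    refine ⟨nf f, Finset.mem_image_of_mem _ (hfin.mem_toFinset.2 hf), ?_⟩
    have h4 := K'.mul_mem (K'.inv_mem h3) hfn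
    have h5 : (f⁻¹ * δ (nf f))⁻¹ * (f⁻¹ * δ n) = (δ (nf f))⁻¹ * δ n := by group
    rwa [h5] at h4
  · rintro ⟨F, hF⟩
    refine ⟨δ '' (F : Set ℕ), F.finite_toSet.image δ, fun g hg => ?_⟩
    obtain ⟨n, hn, -, hng⟩ := h1 G K' K D δ hK'K hKD hop hδ hden g hg univ univ_mem
    obtain ⟨f, hf, hfn⟩ := hF n hn
    refine ⟨δ f, ⟨f, hf, rfl⟩, ?_⟩
    have h4 := K'.mul_mem hfn hng
    have h5 : (δ f)⁻¹ * δ n * ((δ n)⁻¹ * g) = (δ f)⁻¹ * g := by group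
    rwa [h5] at h4

end Pool.Agent.H62.LQ
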